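import Pool.Agent.Helper25.RC.Classes
import Pool.Agent.Helper67.MD.Gap

/-!
# From finite sets with gaps modulo real numbers to infinite sets
-/

set_option autoImplicit false

open Finset Real

namespace Pool.Agent.Helper48.RG

open Pool.Agent.Helper25.RC (repF rep below mem_below below_subset_range repF_below_le)

/-- the finite theorem -/
def RGfin (b : ℝ) : Prop := ∀ (S : Finset ℕ) (x k : ℕ) (M : ℕ → ℝ), S ⊆ range x →
  (0 < k → (24 / b ^ 5) ^ 2 ≤ M 0) → (∀ i, i + 1 < k → (24 / b ^ 5) ^ 2 * M i ≤ M (i + 1)) →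
  (0 < k → 24 / b ^ 5 * M (k - 1) ≤ 2 * x) →
  (∀ i < k, ∃ u : ℝ, ∀ a ∈ S, b ≤ |((a : ℝ) / M i - u) - round ((a : ℝ) / M i - u)|) →
  (#S : ℝ) ^ 4 * (1 + b ^ 3 / 4) ^ k ≤ 4 * x * ∑ n ∈ range (2 * x), (repF S n : ℝ) ^ 2

/-- a gap of length `ε` modulo `M` for the elements of `A` in `[M, x)` -/
def GapAt (A : Set ℕ) (ε : ℝ) (x : ℕ) (M : ℝ) : Prop :=
  ∃ β : ℝ, ∀ a ∈ A, M ≤ a → a < x → ε ≤ Int.fract ((a : ℝ) / M - β)

/-- a gap at the scale `j` -/
def GapScale (A : Set ℕ) (ε : ℝ) (x j : ℕ) : Prop :=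
  ∃ M : ℝ, 2 ^ j ≤ M ∧ M < 2 ^ (j + 1) ∧ GapAt A ε x M

/-- distance to the nearest integer -/
theorem dist_ge {b z : ℝ} (h : 2 * b ≤ Int.fract z) (hb : 0 ≤ b) :
    b ≤ |(z - b) - round (z - b)| := by
  have h1 := Int.fract_lt_one z
  have h2 := Int.floor_add_fract z
  -- `z - b = ⌊z⌋ + (fract z - b)` with `fract z - b ∈ [b, 1 - b)`
  set n : ℤ := round (z - b) with hn
  rcases le_or_gt n ⌊z⌋ with h3 | h3
  · have h4 : (n : ℝ) ≤ ⌊z⌋ := by exact_mod_cast h3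
    rw [abs_of_nonneg (by linarith)]
    linarith
  · have h4 : (⌊z⌋ : ℝ) + 1 ≤ n := by exact_mod_cast h3
    rw [abs_of_nonpos (by linarith)]
    linarith

/-- geometric growth -/
theorem geo {s D : ℕ → ℝ} (hs : ∀ n, 0 ≤ s n) (hD : ∀ n, s n ^ 4 ≤ D n)
    (hgrow : ∀ n, 64 / 33 * D n ≤ D (n + 1)) (N : ℕ) :
    (∑ n ∈ range (N + 1), s n) ^ 4 ≤ 4000 * D N := by
  have hD0 : ∀ n, 0 ≤ D n := fun n => (by positivity : (0 : ℝ) ≤ s n ^ 4).trans (hD n)
  have conv : ∀ x y : ℝ, 0 ≤ x → 0 ≤ y → (x + y) ^ 4 ≤ (10 / 9) ^ 3 * x ^ 4 + 1000 * y ^ 4 := by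
    intro x y hx hy
    have h := (convexOn_pow 4).2 (Set.mem_Ici.2 (show (0 : ℝ) ≤ 10 / 9 * x by positivity))
      (Set.mem_Ici.2 (show (0 : ℝ) ≤ 10 * y by positivity)) (show (0 : ℝ) ≤ 9 / 10 by norm_num)
      (show (0 : ℝ) ≤ 1 / 10 by norm_num) (by norm_num)
    simp only [smul_eq_mul] at h
    have e1 : 9 / 10 * (10 / 9 * x) + 1 / 10 * (10 * y) = x + y := by ring
    rw [e1] at h
    refine h.trans (le_of_eq ?_)
    ring
  induction N with
  | zero =>
    simp only [zero_add, range_one, sum_singleton]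
    have := hD 0
    linarith [hD0 0]
  | succ N ih =>
    rw [sum_range_succ]
    have h1 := conv (∑ n ∈ range (N + 1), s n) (s (N + 1)) (sum_nonneg fun n _ => hs n) (hs _)
    have h2 := hgrow N
    have h3 := hD (N + 1)
    refine h1.trans ?_
    have h4 := hD0 N
    linarith

/-- number of gap scales below `n` -/
noncomputable def cnt (J : Finset ℕ) (n : ℕ) : ℕ := #{j ∈ J | j < n}

theorem cnt_succ (J : Finset ℕ) (n : ℕ) : cnt J (n + 1) ≤ cnt J n + 1 := by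
  unfold cnt
  have : {j ∈ J | j < n + 1} ⊆ insert n {j ∈ J | j < n} := by
    intro j hj
    rw [mem_filter] at hj
    rw [mem_insert, mem_filter]
    rcases eq_or_ne j n with h | h
    · exact Or.inl h
    · exact Or.inr ⟨hj.1, by omega⟩
  exact (card_le_card this).trans (card_insert_le _ _)

theorem cnt_zero (J : Finset ℕ) : cnt J 0 = 0 := by simp [cnt]

/-- the usable scales -/
theorem cnt_le (J : Finset ℕ) (R n : ℕ) :
    cnt J n ≤ #{j ∈ J | R ≤ j ∧ j + R ≤ n} + 2 * R := by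
  unfold cnt
  have h : {j ∈ J | j < n} ⊆ {j ∈ J | R ≤ j ∧ j + R ≤ n} ∪ (range R ∪ Ico (n - R) n) := by
    intro j hj
    rw [mem_filter] at hj
    rw [mem_union, mem_union, mem_filter, mem_range, mem_Ico]
    by_cases h1 : j < R
    · exact Or.inr (Or.inl h1)
    · by_cases h2 : j + R ≤ n
      · exact Or.inl ⟨hj.1, by omega, h2⟩
      · exact Or.inr (Or.inr ⟨by omega, hj.2⟩)
  refine (card_le_card h).trans ((card_union_le _ _).trans ?_)
  have h2 := card_union_le (range R) (Ico (n - R) n)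
  rw [card_range, Nat.card_Ico] at h2
  omega

/-- one dyadic block -/
theorem block {b : ℝ} (hb : 0 < b) (hRG : RGfin b) {R : ℕ}
    (hR : (24 / b ^ 5) ^ 2 ≤ 2 ^ (R - 1)) (hR1 : 1 ≤ 24 / b ^ 5) (hR0 : 2 ≤ R) {A : Set ℕ}
    {x n : ℕ} {J : Finset ℕ} (hJ : ∀ j ∈ J, GapScale A (2 * b) x j) {S : Finset ℕ}
    (hS : ∀ a ∈ S, a ∈ A ∧ a < x ∧ 2 ^ (n - 1) ≤ a ∧ a < 2 ^ n) :
    ∃ k : ℕ, cnt J n ≤ R * (k + 3) ∧ (#S : ℝ) ^ 4 * (1 + b ^ 3 / 4) ^ k ≤
      4 * 2 ^ n * ∑ m ∈ range (2 * 2 ^ n), (repF S m : ℝ) ^ 2 := by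
  classical
  set J1 := {j ∈ J | R ≤ j ∧ j + R ≤ n} with hJ1
  obtain ⟨t, _, ht⟩ := exists_le_card_fiber_of_mul_le_card_of_maps_to
    (s := J1) (t := range R) (f := fun j => j % R) (n := #J1 / R)
    (fun j _ => mem_range.2 (Nat.mod_lt _ (by omega))) ⟨0, mem_range.2 (by omega)⟩ (by
      rw [card_range]
      exact Nat.mul_div_le _ _)
  set J2 := {j ∈ J1 | j % R = t} with hJ2
  set k := #J2 with hk
  have hcnt : cnt J n ≤ R * (k + 3) := by
    have h1 := cnt_le J R n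
    have h2 : #J1 < R * (#J1 / R + 1) := Nat.lt_mul_div_succ _ (by omega)
    have h3 : R * (#J1 / R + 1) ≤ R * (k + 1) := Nat.mul_le_mul_left _ (by omega)
    have h4 : R * (k + 3) = R * (k + 1) + 2 * R := by ring
    rw [← hJ1] at h1
    omega
  refine ⟨k, hcnt, ?_⟩
  -- the chosen moduli
  have hmem : ∀ j ∈ J2, j ∈ J ∧ R ≤ j ∧ j + R ≤ n ∧ j % R = t := by
    intro j hj
    rw [hJ2, mem_filter, hJ1, mem_filter] at hj
    exact ⟨hj.1.1, hj.1.2.1, hj.1.2.2, hj.2⟩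
  choose! Mc hMc1 hMc2 hMc3 using hJ
  have hkk : #J2 = k := hk.symm
  set e := J2.orderEmbOfFin hkk with he
  have hemem : ∀ i : Fin k, e i ∈ J2 := fun i => orderEmbOfFin_mem _ _ i
  set M : ℕ → ℝ := fun i => if h : i < k then Mc (e ⟨i, h⟩) else 0 with hMdef
  have hMval : ∀ i (h : i < k), M i = Mc (e ⟨i, h⟩) := fun i h => by
    simp only [hMdef, dif_pos h]
  have hM1 : ∀ i (h : i < k), (2 : ℝ) ^ e ⟨i, h⟩ ≤ M i := fun i h => by
    rw [hMval i h]; exact hMc1 _ (hmem _ (hemem _)).1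
  have hM2 : ∀ i (h : i < k), M i < (2 : ℝ) ^ (e ⟨i, h⟩ + 1) := fun i h => by
    rw [hMval i h]; exact hMc2 _ (hmem _ (hemem _)).1
  have hSx : S ⊆ range (2 ^ n) := fun a ha => mem_range.2 (hS a ha).2.2.2
  have hmain := hRG S (2 ^ n) k M hSx ?_ ?_ ?_ ?_
  · push_cast at hmain
    exact hmain
  · intro h0
    refine le_trans ?_ (hM1 0 h0)
    refine hR.trans (pow_le_pow_right₀ (by norm_num) ?_)
    have := (hmem _ (hemem ⟨0, h0⟩)).2.1
    omega
  · intro i hi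
    have hi' : i < k := by omega
    have hlt : e ⟨i, hi'⟩ < e ⟨i + 1, hi⟩ := e.strictMono (by simp)
    have h1 := (hmem _ (hemem ⟨i, hi'⟩)).2.2.2
    have h2 := (hmem _ (hemem ⟨i + 1, hi⟩)).2.2.2
    have h3 : R ∣ e ⟨i + 1, hi⟩ - e ⟨i, hi'⟩ :=
      (Nat.modEq_iff_dvd' hlt.le).1 (h1.trans h2.symm)
    have h4 := Nat.le_of_dvd (by omega) h3
    calc (24 / b ^ 5) ^ 2 * M i ≤ 2 ^ (R - 1) * 2 ^ (e ⟨i, hi'⟩ + 1) :=
          mul_le_mul hR (hM2 i hi').le ((by positivity : (0 : ℝ) ≤ 2 ^ e ⟨i, hi'⟩).trans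
            (hM1 i hi')) (by positivity)
      _ = 2 ^ (e ⟨i, hi'⟩ + R) := by
          rw [← pow_add]; congr 1; omega
      _ ≤ 2 ^ e ⟨i + 1, hi⟩ := pow_le_pow_right₀ (by norm_num) (by omega)
      _ ≤ M (i + 1) := hM1 _ hi
  · intro h0
    have hk1 : k - 1 < k := by omega
    have h1 := (hmem _ (hemem ⟨k - 1, hk1⟩)).2.2.1
    have h5 : 24 / b ^ 5 ≤ 2 ^ (R - 1) := by
      refine le_trans ?_ hR
      nlinarith
    push_cast
    calc 24 / b ^ 5 * M (k - 1) ≤ 2 ^ (R - 1) * 2 ^ (e ⟨k - 1, hk1⟩ + 1) :=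
          mul_le_mul h5 (hM2 _ hk1).le ((by positivity : (0 : ℝ) ≤ 2 ^ e ⟨k - 1, hk1⟩).trans
            (hM1 _ hk1)) (by positivity)
      _ = 2 ^ (e ⟨k - 1, hk1⟩ + R) := by
          rw [← pow_add]; congr 1; omega
      _ ≤ 2 ^ n := pow_le_pow_right₀ (by norm_num) h1
      _ ≤ 2 * 2 ^ n := by linarith [(by positivity : (0 : ℝ) < 2 ^ n)]
  · intro i hi
    obtain ⟨β, hβ⟩ := hMc3 _ (hmem _ (hemem ⟨i, hi⟩)).1
    rw [← hMval i hi] at hβ
    refine ⟨β + b, fun a ha => ?_⟩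
    obtain ⟨haA, hax, ha1, _⟩ := hS a ha
    have hMa : M i ≤ a := by
      refine (hM2 i hi).le.trans ?_
      have h1 := (hmem _ (hemem ⟨i, hi⟩)).2.2.1
      calc (2 : ℝ) ^ (e ⟨i, hi⟩ + 1) ≤ 2 ^ (n - 1) := pow_le_pow_right₀ (by norm_num) (by omega)
        _ ≤ a := by exact_mod_cast ha1
    have h := dist_ge (hβ a haA hMa hax) hb.le
    rw [← sub_sub]
    exact h

theorem repF_mono {S T : Finset ℕ} (h : S ⊆ T) (m : ℕ) : repF S m ≤ repF T m := by
  unfold repF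
  exact card_le_card (filter_subset_filter _ (product_subset_product h h))

theorem repF_zero {T : Finset ℕ} {x m : ℕ} (hT : T ⊆ range x) (hm : 2 * x ≤ m) :
    repF T m = 0 := by
  unfold repF
  rw [card_eq_zero, filter_eq_empty_iff]
  intro p hp
  rw [mem_product] at hp
  have h1 := mem_range.1 (hT hp.1)
  have h2 := mem_range.1 (hT hp.2)
  omega

theorem energy_mono {S T : Finset ℕ} (h : S ⊆ T) {x : ℕ} (hT : T ⊆ range x) (y : ℕ) :
    ∑ m ∈ range y, (repF S m : ℝ) ^ 2 ≤ ∑ m ∈ range (2 * x), (repF T m : ℝ) ^ 2 := by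
  calc ∑ m ∈ range y, (repF S m : ℝ) ^ 2
      ≤ ∑ m ∈ range (max y (2 * x)), (repF S m : ℝ) ^ 2 :=
        sum_le_sum_of_subset_of_nonneg (range_subset_range.2 (le_max_left _ _))
          fun _ _ _ => by positivity
    _ = ∑ m ∈ range (2 * x), (repF S m : ℝ) ^ 2 := by
        symm
        apply sum_subset (range_subset_range.2 (le_max_right _ _))
        intro m _ hm
        rw [mem_range, not_lt] at hm
        rw [repF_zero (h.trans hT) hm]
        norm_num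
    _ ≤ ∑ m ∈ range (2 * x), (repF T m : ℝ) ^ 2 := by
        refine sum_le_sum fun m _ => ?_
        have : (repF S m : ℝ) ≤ repF T m := by exact_mod_cast repF_mono h m
        gcongr

/-- number of scales with a gap below `x` -/
noncomputable def gapCount (A : Set ℕ) (ε : ℝ) (x : ℕ) : ℕ :=
  Set.ncard {j : ℕ | j < Nat.log 2 x ∧ GapScale A ε x j}

/-- the growth theorem for a single set -/
theorem core {b : ℝ} (hb : 0 < b) (hb1 : b ≤ 1 / 2) (hRG : RGfin b) {R : ℕ}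
    (hR : (24 / b ^ 5) ^ 2 ≤ 2 ^ (R - 1)) (hR0 : 2 ≤ R) {q : ℝ} (hq0 : 1 ≤ q)
    (hq : q ^ R = 1 + b ^ 3 / 4) (A : Set ℕ) {x : ℕ} (hx : 1 ≤ x) :
    (#(below A x) : ℝ) ^ 4 * q ^ gapCount A (2 * b) x ≤
      64000 * x * ∑ n ∈ range (2 * x), (rep A n : ℝ) ^ 2 := by
  classical
  set L := Nat.log 2 x with hL
  set J : Finset ℕ := {j ∈ range L | GapScale A (2 * b) x j} with hJ
  have hJc : gapCount A (2 * b) x = #J := by
    unfold gapCount
    rw [← Set.ncard_coe_finset]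
    congr 1
    ext j
    simp [hJ, hL]
  have hJL : cnt J L = #J := by
    unfold cnt
    congr 1
    apply filter_true_of_mem
    intro j hj
    exact mem_range.1 (mem_filter.1 hj).1
  have hJL1 : cnt J (L + 1) = #J := by
    unfold cnt
    congr 1
    apply filter_true_of_mem
    intro j hj
    have := mem_range.1 (mem_filter.1 hj).1
    omega
  have hb3 : b ^ 3 / 4 ≤ 1 / 32 := by
    have : b ^ 3 ≤ (1 / 2) ^ 3 := pow_le_pow_left₀ hb.le hb1 3
    linarith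
  have hγ : 1 + b ^ 3 / 4 ≤ 33 / 32 := by linarith
  have hγ0 : 0 < 1 + b ^ 3 / 4 := by positivity
  have hqle : q ≤ 33 / 32 := by
    refine le_trans ?_ hγ
    rw [← hq]
    exact le_self_pow₀ hq0 (by omega)
  have hR1 : 1 ≤ 24 / b ^ 5 := by
    rw [le_div_iff₀ (by positivity)]
    have : b ^ 5 ≤ (1 / 2) ^ 5 := pow_le_pow_left₀ hb.le hb1 5
    linarith
  set T := below A x with hT
  have hTx : T ⊆ range x := below_subset_range A x
  set E := ∑ m ∈ range (2 * x), (repF T m : ℝ) ^ 2 with hE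
  have hE0 : 0 ≤ E := sum_nonneg fun _ _ => by positivity
  -- the blocks
  set S : ℕ → Finset ℕ := fun n => {a ∈ T | Nat.size a = n} with hS
  have hST : ∀ n, S n ⊆ T := fun n => filter_subset _ _
  have hcard : #T = ∑ n ∈ range (L + 2), #(S n) := by
    apply card_eq_sum_card_fiberwise
    intro a ha
    have h1 : a < x := (mem_below.1 ha).1
    have h2 : x < 2 ^ (L + 1) := Nat.lt_pow_succ_log_self (by norm_num) x
    have h3 : Nat.size a ≤ L + 1 := Nat.size_le.2 (h1.trans h2)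
    exact mem_coe.2 (mem_range.2 (by omega))
  -- the bound for the blocks
  set D : ℕ → ℝ := fun n => 8 * 2 ^ n * E / q ^ cnt J n with hD
  have hDpos : ∀ n, 0 ≤ D n := fun n => by
    have : 0 < q := by linarith
    positivity
  have hq1 : 0 < q := by linarith
  have hblock : ∀ n, (#(S n) : ℝ) ^ 4 ≤ D n := by
    intro n
    rcases Nat.eq_zero_or_pos n with rfl | hn
    · -- the element zero
      simp only [hD, cnt_zero, pow_zero, mul_one, div_one]
      have h0 : #(S 0) ≤ 1 := by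
        rw [card_le_one]
        intro a ha c hc
        have h1 := (mem_filter.1 ha).2
        have h2 := (mem_filter.1 hc).2
        rw [Nat.size_eq_zero] at h1 h2
        rw [h1, h2]
      rcases Nat.eq_zero_or_pos (#(S 0)) with h | h
      · rw [h]; simpa using hE0
      · have h1 : #(S 0) = 1 := by omega
        rw [h1]
        obtain ⟨a, ha⟩ := card_pos.1 h
        have ha0 : a = 0 := Nat.size_eq_zero.1 (mem_filter.1 ha).2
        have haT : (0 : ℕ) ∈ T := ha0 ▸ (mem_filter.1 ha).1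
        have h2 : 1 ≤ repF T 0 := by
          unfold repF
          rw [Nat.succ_le_iff, card_pos]
          exact ⟨(0, 0), mem_filter.2 ⟨mem_product.2 ⟨haT, haT⟩, rfl⟩⟩
        have h3 : (1 : ℝ) ≤ repF T 0 := by exact_mod_cast h2
        have h4 : (repF T 0 : ℝ) ^ 2 ≤ E :=
          single_le_sum (f := fun m => (repF T m : ℝ) ^ 2) (fun _ _ => by positivity)
            (mem_range.2 (by omega))
        push_cast
        nlinarith
    · have hSn : ∀ a ∈ S n, a ∈ A ∧ a < x ∧ 2 ^ (n - 1) ≤ a ∧ a < 2 ^ n := by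
        intro a ha
        obtain ⟨h1, h2⟩ := mem_filter.1 ha
        have h3 := mem_below.1 h1
        refine ⟨h3.2, h3.1, ?_, ?_⟩
        · exact Nat.lt_size.1 (by omega)
        · exact Nat.size_le.1 h2.le
      obtain ⟨k, hk1, hk2⟩ := block hb hRG hR hR1 hR0 (n := n) (J := J)
        (fun j hj => (mem_filter.1 hj).2) hSn
      have h1 : q ^ cnt J n ≤ (1 + b ^ 3 / 4) ^ k * 2 := by
        calc q ^ cnt J n ≤ q ^ (R * (k + 3)) := pow_le_pow_right₀ hq0 hk1
          _ = (1 + b ^ 3 / 4) ^ k * (1 + b ^ 3 / 4) ^ 3 := by rw [pow_mul, hq, pow_add]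
          _ ≤ (1 + b ^ 3 / 4) ^ k * 2 := by
              refine mul_le_mul_of_nonneg_left ?_ (by positivity)
              calc (1 + b ^ 3 / 4) ^ 3 ≤ (33 / 32) ^ 3 := pow_le_pow_left₀ hγ0.le hγ 3
                _ ≤ 2 := by norm_num
      have h2 := energy_mono (hST n) hTx (2 * 2 ^ n)
      simp only [hD]
      rw [le_div_iff₀ (by positivity)]
      calc (#(S n) : ℝ) ^ 4 * q ^ cnt J n ≤ (#(S n) : ℝ) ^ 4 * ((1 + b ^ 3 / 4) ^ k * 2) :=
            mul_le_mul_of_nonneg_left h1 (by positivity)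
        _ = ((#(S n) : ℝ) ^ 4 * (1 + b ^ 3 / 4) ^ k) * 2 := by ring
        _ ≤ (4 * 2 ^ n * ∑ m ∈ range (2 * 2 ^ n), (repF (S n) m : ℝ) ^ 2) * 2 :=
            mul_le_mul_of_nonneg_right hk2 (by norm_num)
        _ ≤ (4 * 2 ^ n * E) * 2 := by
            refine mul_le_mul_of_nonneg_right (mul_le_mul_of_nonneg_left h2 (by positivity))
              (by norm_num)
        _ = 8 * 2 ^ n * E := by ring
  have hgrow : ∀ n, 64 / 33 * D n ≤ D (n + 1) := by
    intro n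
    simp only [hD]
    rw [mul_div_assoc', div_le_div_iff₀ (by positivity) (by positivity)]
    have h1 : q ^ cnt J (n + 1) ≤ q ^ cnt J n * (33 / 32) := by
      calc q ^ cnt J (n + 1) ≤ q ^ (cnt J n + 1) := pow_le_pow_right₀ hq0 (cnt_succ J n)
        _ = q ^ cnt J n * q := pow_succ _ _
        _ ≤ _ := mul_le_mul_of_nonneg_left hqle (by positivity)
    calc 64 / 33 * (8 * 2 ^ n * E) * q ^ cnt J (n + 1)
        ≤ 64 / 33 * (8 * 2 ^ n * E) * (q ^ cnt J n * (33 / 32)) :=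
          mul_le_mul_of_nonneg_left h1 (by positivity)
      _ = 8 * 2 ^ (n + 1) * E * q ^ cnt J n := by ring
  have hfin := geo (s := fun n => (#(S n) : ℝ)) (fun n => Nat.cast_nonneg _) hblock hgrow (L + 1)
  have hcard' : (#T : ℝ) = ∑ n ∈ range (L + 1 + 1), (#(S n) : ℝ) := by
    rw [hcard]; push_cast; rfl
  rw [← hcard'] at hfin
  simp only [hD, hJL1] at hfin
  rw [hJc]
  rw [mul_div_assoc', le_div_iff₀ (by positivity)] at hfin
  refine hfin.trans ?_
  have h2L : (2 : ℝ) ^ L ≤ x := by exact_mod_cast Nat.pow_log_le_self 2 (by omega)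
  have hEr : E ≤ ∑ n ∈ range (2 * x), (rep A n : ℝ) ^ 2 := by
    refine sum_le_sum fun m _ => ?_
    have : (repF T m : ℝ) ≤ rep A m := by exact_mod_cast repF_below_le A x m
    gcongr
  calc 4000 * (8 * 2 ^ (L + 1) * E) = 64000 * (2 ^ L * E) := by ring
    _ ≤ 64000 * (x * ∑ n ∈ range (2 * x), (rep A n : ℝ) ^ 2) :=
        mul_le_mul_of_nonneg_left (mul_le_mul h2L hEr hE0 (Nat.cast_nonneg _)) (by norm_num)
    _ = _ := by ring

/-- CLAUSE (ii): gaps at many scales give a large mean square. -/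
theorem clause {ε : ℝ} (hε0 : 0 < ε) (hε1 : ε ≤ 1) (hRG : RGfin (ε / 2)) :
    ∃ c : ℝ, 0 < c ∧ ∀ (A : Set ℕ) (x : ℕ), 1 ≤ x →
      (#(below A x) : ℝ) ^ 4 * (1 + c) ^ gapCount A ε x ≤
        64000 * x * ∑ n ∈ range (2 * x), (rep A n : ℝ) ^ 2 := by
  set b := ε / 2 with hb
  have hb0 : 0 < b := by positivity
  have hb1 : b ≤ 1 / 2 := by rw [hb]; linarith
  have hε : ε = 2 * b := by rw [hb]; ring
  obtain ⟨r, hr⟩ := pow_unbounded_of_one_lt ((24 / b ^ 5) ^ 2) (one_lt_two (α := ℝ))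
  set R := r + 2 with hR
  have hRb : (24 / b ^ 5) ^ 2 ≤ 2 ^ (R - 1) := by
    refine hr.le.trans (pow_le_pow_right₀ (by norm_num) (by omega))
  have hγ : 1 < 1 + b ^ 3 / 4 := by
    have : 0 < b ^ 3 / 4 := by positivity
    linarith
  set q : ℝ := (1 + b ^ 3 / 4) ^ ((R : ℝ)⁻¹) with hq
  have hqR : q ^ R = 1 + b ^ 3 / 4 := by
    rw [hq, ← Real.rpow_natCast, ← Real.rpow_mul (by positivity),
      inv_mul_cancel₀ (by positivity), Real.rpow_one]
  have hq1 : 1 < q := Real.one_lt_rpow hγ (by positivity)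
  refine ⟨q - 1, by linarith, fun A x hx => ?_⟩
  have h := core hb0 hb1 hRG hRb (by omega) hq1.le hqR A hx
  rw [hε]
  have e : 1 + (q - 1) = q := by ring
  rw [e]
  exact h

open Pool.Agent.Helper67.MD (gapScales) in
/-- CLAUSE (ii) on helper67's interface. -/
theorem ii (hRG : ∀ b : ℝ, 0 < b → b ≤ 1 / 2 → RGfin b) (ε : ℝ) (hε0 : 0 < ε) (hε1 : ε ≤ 1) :
    ∃ c : ℝ, 0 < c ∧ ∃ C : ℝ, ∀ (A : Set ℕ) (x : ℕ), 1 ≤ x →
      (#(below A x) : ℝ) ^ 4 * (1 + c) ^ #(gapScales A ε x) ≤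
        C * x * ∑ n ∈ range (2 * x), (rep A n : ℝ) ^ 2 := by
  classical
  obtain ⟨c, hc, h⟩ := clause hε0 hε1 (hRG (ε / 2) (by positivity) (by linarith))
  refine ⟨c, hc, 64000, fun A x hx => ?_⟩
  have h1 := h A x hx
  have e : gapCount A ε x = #(gapScales A ε x) := by
    unfold gapCount
    rw [← Set.ncard_coe_finset]
    congr 1
    ext j
    simp [gapScales, GapScale, GapAt]
  rwa [e] at h1

end Pool.Agent.Helper48.RG
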